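import Pool.Agent.Helper74.NE.Defs

/-!
# One node is enough: definitions

A row is a word of `m` letters. The letter `u` of the row `i + 1` is the sum, over all `c` modulo `m`, of the entries
number `c` of the cells given by the letters `u + c` of the row `i`.
-/

namespace Pool.Agent.Helper74.NO

open Pool.Agent.Helper19.NF Pool.Agent.Helper74.NW

variable {m : ℕ} [NeZero m] {B : Type} [AddCommGroup B]

/-- The rotations: `rot m c u = u + c`. -/
def rot (m : ℕ) [NeZero m] (c : Fin m) : Equiv.Perm (Fin m) := Equiv.addRight c

theorem rot_apply (c u : Fin m) : rot m c u = u + c := rfl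

/-- All letters of the row `i` are queried in the list. -/
def AllIn (x0 : Fin m → B) (I : B → Fin m → B) (i : ℕ) (l : List B) : Prop := ∀ v, val (rot m) x0 I i v ∈ l

open Classical in
/-- The change of the content of the cell of the letter `r` of the row `i`: the letter `t` of the row `i + 1` changes by
`y t`. -/
noncomputable def chg (x0 : Fin m → B) (i : ℕ) (r : Fin m) (y : Fin m → B) (I : B → Fin m → B) : B → Fin m → B :=
  fun b c => if b = val (rot m) x0 I i r then y (r - c) else 0

/-- The instances with two adjacent windows between the given states such that: all the letters of the row `i + 1` are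
queried in one of them, the letter `r` of the row `i` is not queried in the first and the letter `r'` is not queried in
the second one. -/
def InX {S K : ℕ} (P : NProg B (Fin m → B) B S) (e : B → Fin K) (x0 : Fin m → B) (T i : ℕ) (r r' : Fin m)
    (s p t : Fin S) (I : B → Fin m → B) : Prop :=
  CF (rot m) x0 i I ∧ ∃ w₁ w₂ : List B, Best P e I s w₁ p ∧ Best P e I p w₂ t ∧ Nat.card {c // c ∈ w₁ ++ w₂} ≤ T ∧
    AllIn x0 I (i + 1) (w₁ ++ w₂) ∧ val (rot m) x0 I i r ∉ w₁ ∧ val (rot m) x0 I i r' ∉ w₂

end Pool.Agent.Helper74.NO
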