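import Pool.Agent.Helper74.NO.Defs

/-!
# Frame (only for the work, not for the graded result)
-/

namespace Pool.Agent.Helper74.NO.Frame

open Pool.Agent.Helper74.NW Pool.Agent.Helper74.NO Pool.Agent.Helper19.NF
open Pool.Agent.Helper74.NE (DP)

variable {m : ℕ} [NeZero m] {B : Type} [AddCommGroup B] {S K : ℕ}

/-- O4 (helper1): without bad cuts the computation is long. -/
theorem long {x0 : Fin m → B} {R : ℕ} {I : B → Fin m → B} (hm : 2 ≤ m) (hI : CF (rot m) x0 R I) (l : List B)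
    (hl : AllIn x0 I R l)
    (hh : ∀ i < R, ∀ p w₁ w₂ q, l = p ++ w₁ ++ w₂ ++ q → AllIn x0 I (i + 1) (w₁ ++ w₂) →
      AllIn x0 I i w₁ ∨ AllIn x0 I i w₂) : 2 ^ R < l.length := sorry

/-- O5 (helper96): a class is small. -/
theorem class_bound [Fintype B] (P : NProg B (Fin m → B) B S) (e : B → Fin K) (he : Function.Injective e)
    (x0 : Fin m → B) {T i : ℕ} {δ : ℝ} (hδ : DP B (Fin m) T δ) (r r' : Fin m) (s p t : Fin S)
    (I : B → Fin m → B) (hI : CF (rot m) x0 i I) :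
    (Nat.card {y : (Fin m → B) × (Fin m → B) //
        InX P e x0 T i r r' s p t (I + chg x0 i r y.1 I + chg x0 i r' y.2 I)} : ℝ) ≤
      δ * Nat.card ((Fin m → B) × (Fin m → B)) := sorry

/-- O6a (helper96): the number of instances of one type. -/
theorem type_bound [Fintype B] (P : NProg B (Fin m → B) B S) (e : B → Fin K) (he : Function.Injective e)
    (x0 : Fin m → B) {T i : ℕ} {δ : ℝ} (hδ : DP B (Fin m) T δ) (r r' : Fin m) (s p t : Fin S) :
    (Nat.card {I : B → Fin m → B // InX P e x0 T i r r' s p t I} : ℝ) ≤ δ * Nat.card (B → Fin m → B) := sorry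

/-- O6b (helper66): all types. -/
theorem good_bound [Fintype B] (P : NProg B (Fin m → B) B S) (e : B → Fin K) (he : Function.Injective e)
    (x0 : Fin m → B) {R T : ℕ} {δ : ℝ} (hδ : DP B (Fin m) T δ) (hm : 2 ≤ m) :
    (Nat.card {I : B → Fin m → B // CF (rot m) x0 R I ∧ ∃ l t, Best P e I P.start l t ∧
        Nat.card {c // c ∈ l} ≤ T ∧ AllIn x0 I R l ∧ l.length ≤ 2 ^ R} : ℝ) ≤
      R * m ^ 2 * (S : ℝ) ^ 3 * δ * Nat.card (B → Fin m → B) := sorry

/-- O8 (helper78): the main inequality. -/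
theorem main_bound [Fintype B] (P : NProg B (Fin m → B) B S) (x0 : Fin m → B) (h0 : Function.Injective x0)
    {R T p : ℕ} {δ : ℝ} (hδ : DP B (Fin m) T δ) (c : Fin m) (hm : 2 ≤ m)
    (φ : B → B) (hφ : ∀ y, Nat.card {x // φ x = y} ≤ p) :
    (Nat.card {I : B → Fin m → B // (∃ l z, P.Ends I l z) ∧
        (∀ l z, P.Ends I l z → z = φ (res (rot m) x0 R c I)) ∧
        ∀ l z, P.Shortest I l z → Nat.card {b // b ∈ l} ≤ T ∧ min S l.length ≤ 2 ^ R} : ℝ) ≤
      ((m * p + ((R + 1) * m) ^ 2) / Fintype.card B + R * m ^ 2 * (S : ℝ) ^ 3 * δ) *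
        Nat.card (B → Fin m → B) := sorry

/-- O8b (helper78): the decision version. -/
theorem decision_bound [Fintype B] (P : NProg B (Fin m → B) B S) (x0 : Fin m → B) (h0 : Function.Injective x0)
    {R T : ℕ} {δ : ℝ} (hδ : DP B (Fin m) T δ) (c : Fin m) (hm : 2 ≤ m)
    (Y : Finset B) (y : ℝ) (hy : y = Y.card / Fintype.card B) :
    (min y ((1 - y) / m) - ((R + 1) * m) ^ 2 / Fintype.card B - R * m ^ 2 * (S : ℝ) ^ 3 * δ) *
        Nat.card (B → Fin m → B) ≤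
      Nat.card {I : B → Fin m → B // ¬ (((∃ l z, P.Ends I l z) ↔ res (rot m) x0 R c I ∈ Y) ∧
        ∀ l z, P.Shortest I l z → Nat.card {b // b ∈ l} ≤ T ∧ min S l.length ≤ 2 ^ R)} := sorry

/-- O9 (helper78): both for nondeterministic pushdown programs with `q` states which end within `2 ^ b` steps. -/
theorem push_main_bound {Q Γ : Type} [Fintype Q] [Fintype B] (P : NPProg B (Fin m → B) B Q Γ)
    (x0 : Fin m → B) (h0 : Function.Injective x0) {R T p b : ℕ} {δ : ℝ}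
    (hδ : DP B (Fin m) (T + 1) δ) (hb : b < R) (c : Fin m) (hm : 2 ≤ m)
    (φ : B → B) (hφ : ∀ y, Nat.card {x // φ x = y} ≤ p) :
    (Nat.card {I : B → Fin m → B // (∃ l k z, P.Ends I l k z ∧ k ≤ 2 ^ b) ∧
        ∀ l k z, P.Ends I l k z → z = φ (res (rot m) x0 R c I) ∧ Nat.card {b // b ∈ l} ≤ T} : ℝ) ≤
      ((m * p + ((R + 1) * m) ^ 2) / Fintype.card B +
        R * m ^ 2 * ((2 * (Fintype.card Q : ℝ) ^ 2 + 2) ^ (b + 2)) ^ 3 * δ) * Nat.card (B → Fin m → B) := sorry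

theorem push_decision_bound {Q Γ : Type} [Fintype Q] [Fintype B] (P : NPProg B (Fin m → B) B Q Γ)
    (x0 : Fin m → B) (h0 : Function.Injective x0) {R T b : ℕ} {δ : ℝ}
    (hδ : DP B (Fin m) (T + 1) δ) (hb : b < R) (c : Fin m) (hm : 2 ≤ m)
    (Y : Finset B) (y : ℝ) (hy : y = Y.card / Fintype.card B) :
    (min y ((1 - y) / m) - ((R + 1) * m) ^ 2 / Fintype.card B -
        R * m ^ 2 * ((2 * (Fintype.card Q : ℝ) ^ 2 + 2) ^ (b + 2)) ^ 3 * δ) * Nat.card (B → Fin m → B) ≤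
      Nat.card {I : B → Fin m → B //
        ¬ ((res (rot m) x0 R c I ∈ Y → ∃ l k z, P.Ends I l k z ∧ k ≤ 2 ^ b) ∧
          ∀ l k z, P.Ends I l k z → res (rot m) x0 R c I ∈ Y ∧ Nat.card {b // b ∈ l} ≤ T)} := sorry

end Pool.Agent.Helper74.NO.Frame
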