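import Pool.Agent.Helper74.NO.Num
import Pool.Agent.Helper74.NO.Frame
import Pool.Agent.Helper74.NW.Frame

/-!
# The theorem with numbers
-/

namespace Pool.Agent.Helper74.NO

open Pool.Agent.Helper19.NF Pool.Agent.Helper74.NW
open Pool.Agent.Helper74.NE (DP)

theorem no_main (m : ℕ) [NeZero m] (hm : 2 ≤ m) (B : Type) [AddCommGroup B] [Finite B] (x0 : Fin m → B)
    (h0 : Function.Injective x0) (R k V : ℕ) (c : Fin m) (hk : k = Nat.card B) (hV : V = (R + 1) * m)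
    (hVk : V ≤ k) :
    (∀ (S T p : ℕ) (φ : B → B) (P : NProg B (Fin m → B) B S) (τ : ℝ),
      (∀ y, Nat.card {x // φ x = y} ≤ p) → T ≤ k → τ = T / k →
      (Nat.card {I : B → Fin m → B // (∃ l z, P.Ends I l z) ∧
        (∀ l z, P.Ends I l z → z = φ (res (rot m) x0 R c I)) ∧
        ∀ l z, P.Shortest I l z → Nat.card {b // b ∈ l} ≤ T ∧ min S l.length ≤ 2 ^ R} : ℝ) ≤
        ((m * p + V ^ 2) / k + 2 * R * m ^ 2 * S ^ 3 * (2 / (3 - τ)) ^ m) * Nat.card (B → Fin m → B)) ∧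
    (∀ (S T : ℕ) (Y : Set B) (P : NProg B (Fin m → B) B S) (y τ : ℝ),
      y = Nat.card Y / k → T ≤ k → τ = T / k →
      (min y ((1 - y) / m) - V ^ 2 / k - 2 * R * m ^ 2 * S ^ 3 * (2 / (3 - τ)) ^ m) *
          Nat.card (B → Fin m → B) ≤
        Nat.card {I : B → Fin m → B // ¬ (((∃ l z, P.Ends I l z) ↔ res (rot m) x0 R c I ∈ Y) ∧
          ∀ l z, P.Shortest I l z → Nat.card {b // b ∈ l} ≤ T ∧ min S l.length ≤ 2 ^ R)}) ∧
    (∀ (q b T p : ℕ) (Q Γ : Type) (_ : Finite Q) (φ : B → B) (P : NPProg B (Fin m → B) B Q Γ) (τ : ℝ),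
      q = Nat.card Q → b < R → (∀ y, Nat.card {x // φ x = y} ≤ p) → T + 1 ≤ k → τ = (T + 1) / k →
      (Nat.card {I : B → Fin m → B // (∃ l n z, P.Ends I l n z ∧ n ≤ 2 ^ b) ∧
        ∀ l n z, P.Ends I l n z → z = φ (res (rot m) x0 R c I) ∧ Nat.card {b // b ∈ l} ≤ T} : ℝ) ≤
        ((m * p + V ^ 2) / k + 2 * R * m ^ 2 * ((2 * q ^ 2 + 2) ^ (b + 2)) ^ 3 * (2 / (3 - τ)) ^ m) *
          Nat.card (B → Fin m → B)) ∧
    (∀ (q b T : ℕ) (Q Γ : Type) (_ : Finite Q) (Y : Set B) (P : NPProg B (Fin m → B) B Q Γ)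
      (y τ : ℝ), q = Nat.card Q → b < R → y = Nat.card Y / k → T + 1 ≤ k → τ = (T + 1) / k →
      (min y ((1 - y) / m) - V ^ 2 / k -
          2 * R * m ^ 2 * ((2 * q ^ 2 + 2) ^ (b + 2)) ^ 3 * (2 / (3 - τ)) ^ m) *
          Nat.card (B → Fin m → B) ≤
        Nat.card {I : B → Fin m → B //
          ¬ ((res (rot m) x0 R c I ∈ Y → ∃ l n z, P.Ends I l n z ∧ n ≤ 2 ^ b) ∧
            ∀ l n z, P.Ends I l n z → res (rot m) x0 R c I ∈ Y ∧ Nat.card {b // b ∈ l} ≤ T)}) ∧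
    (∃ S ≤ (V + 1) * k ^ (2 * m), ∃ P : NProg B (Fin m → B) B S,
      (∀ s b next, P.act s = Sum.inl (b, next) → ∀ w, ∃ t, next w = {t}) ∧
      ∀ I, ∃ l, P.Ends I l (res (rot m) x0 R c I) ∧
        (∀ l' z, P.Ends I l' z → l' = l ∧ z = res (rot m) x0 R c I) ∧ Nat.card {b // b ∈ l} ≤ V) ∧
    (∃ (Q Γ : Type) (_ : Finite Q) (_ : Finite Γ) (P : PProg B (Fin m → B) B Q Γ),
      Nat.card Q ≤ (m * k) ^ 4 ∧ Nat.card Γ ≤ (m * k) ^ 2 ∧
      ∀ I, P.Outputs I (res (rot m) x0 R c I) ∧ Nat.card {b // P.Asks I b} ≤ V) := by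
  classical
  have := Fintype.ofFinite B
  have : Nonempty (Fin m) := ⟨c⟩
  have hk2 : k = Fintype.card B := by rw [hk, Nat.card_eq_fintype_card]
  have hV' : (V : ℝ) = (R + 1) * m := by rw [hV]; push_cast; ring
  have hVpos : 2 ≤ V := by rw [hV]; nlinarith
  have hcU : Fintype.card (Fin m) = m := Fintype.card_fin m
  have hdp : ∀ T : ℕ, T ≤ k → ∀ τ : ℝ, τ = T / k → DP B (Fin m) T (2 * (2 / (3 - τ)) ^ m) := by
    intro T hT τ hτ
    have h1 := dp (B := B) (ι := Fin m) (T := T) (τ := τ) (by rw [← hk]; exact hT) (by rw [← hk]; exact hτ)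
    rwa [Nat.card_eq_fintype_card (α := Fin m), Fintype.card_fin] at h1
  have hE : ∀ s τ : ℝ, (R : ℝ) * m ^ 2 * s ^ 3 * (2 * (2 / (3 - τ)) ^ m) =
      2 * R * m ^ 2 * s ^ 3 * (2 / (3 - τ)) ^ m := fun s τ => by ring
  refine ⟨?_, ?_, ?_, ?_, ?_, ?_⟩
  · intro S T p φ P τ hφ hT hτ
    have h1 := Frame.main_bound P x0 h0 (R := R) (T := T) (hdp T hT τ hτ) c hm φ hφ
    rwa [hE, ← hk2, ← hV'] at h1
  · intro S T Y P y τ hy hT hτ
    have h1 := Frame.decision_bound P x0 h0 (R := R) (T := T) (hdp T hT τ hτ) c hm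
      (Finset.univ.filter (fun b => b ∈ Y)) y (by
        rw [hy, hk2]
        congr 2
        rw [Nat.card_eq_fintype_card]
        exact Fintype.card_of_subtype _ (fun b => by simp))
    simp only [Finset.mem_filter, Finset.mem_univ, true_and] at h1
    rwa [hE, ← hk2, ← hV'] at h1
  · intro q b T p Q Γ _ φ P τ hq hb hφ hT hτ
    have := Fintype.ofFinite Q
    have h1 := Frame.push_main_bound P x0 h0 (R := R) (T := T)
      (hdp (T + 1) hT τ (by rw [hτ]; push_cast; rfl)) hb c hm φ hφ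
    rw [hE, ← hk2, ← hV'] at h1
    rwa [hq, Nat.card_eq_fintype_card (α := Q)]
  · intro q b T Q Γ _ Y P y τ hq hb hy hT hτ
    have := Fintype.ofFinite Q
    have h1 := Frame.push_decision_bound P x0 h0 (R := R) (T := T)
      (hdp (T + 1) hT τ (by rw [hτ]; push_cast; rfl)) hb c hm
      (Finset.univ.filter (fun b => b ∈ Y)) y (by
        rw [hy, hk2]
        congr 2
        rw [Nat.card_eq_fintype_card]
        exact Fintype.card_of_subtype _ (fun b => by simp))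
    simp only [Finset.mem_filter, Finset.mem_univ, true_and] at h1
    rw [hE, ← hk2, ← hV'] at h1
    rwa [hq, Nat.card_eq_fintype_card (α := Q)]
  · obtain ⟨S, hS, P, h1, h2⟩ := NW.Frame.row_program (rot m) x0 R c
    rw [hcU, ← hV, ← hk2] at hS
    rw [hcU, ← hV] at h2
    exact ⟨S, hS, P, h1, h2⟩
  · obtain ⟨Q, Γ, h1, h2, P, h3, h4, h5⟩ := NW.Frame.pushdown_program (rot m) x0 R c
      (by rw [hcU, ← hV, ← hk2]; exact hVk) (by omega)
    rw [hcU, ← hV] at h5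
    rw [hcU, ← hk2] at h3 h4
    exact ⟨Q, Γ, h1, h2, P, h3, h4, h5⟩

end Pool.Agent.Helper74.NO
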