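import Pool.Agent.Helper74.NO.Defs
import Pool.Agent.Helper99.NX.Hit

/-!
# The hitting lemma in the form used for the classes
-/

namespace Pool.Agent.Helper74.NO

open Pool.Agent.Helper74.NE (DP)

theorem dp {B ι : Type} [AddCommGroup B] [Finite B] [Finite ι] {T : ℕ} {τ : ℝ} (hT : T ≤ Nat.card B)
    (hτ : τ = T / Nat.card B) : DP B ι T (2 * (2 / (3 - τ)) ^ Nat.card ι) := by
  classical
  have := Fintype.ofFinite B
  have := Fintype.ofFinite ι
  intro x Z₁ Z₂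
  rw [Nat.card_eq_fintype_card] at hT hτ
  have hk : (0 : ℝ) < Fintype.card B := by
    have : 0 < Fintype.card B := Fintype.card_pos_iff.mpr ⟨0⟩
    exact_mod_cast this
  have hT' : (T : ℝ) ≤ Fintype.card B := by exact_mod_cast hT
  have hτ1 : τ ≤ 1 := by rw [hτ, div_le_one hk]; exact hT'
  have hint : ∀ p : (ι → B) × (ι → B), (Z₁ p.2)ᶜ.toFinset ∩ (Z₂ p.1)ᶜ.toFinset =
      ((Z₁ p.2 ∪ Z₂ p.1).toFinset)ᶜ := by
    intro p
    ext b
    simp only [Finset.mem_inter, Set.mem_toFinset, Set.mem_compl_iff, Finset.mem_compl, Set.mem_union, not_or]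
  have h2 := Pool.Agent.Helper99.NX.hitting (fun z => (Z₁ z)ᶜ.toFinset) (fun y => (Z₂ y)ᶜ.toFinset) x (1 - τ)
    (by linarith)
  have h3 : Nat.card {p : (ι → B) × (ι → B) // (Z₁ p.2 ∪ Z₂ p.1).ncard ≤ T ∧
      ∀ t, x t + p.1 t + p.2 t ∈ Z₁ p.2 ∪ Z₂ p.1} ≤
      Nat.card {y : (ι → B) × (ι → B) // (1 - τ) * Fintype.card B ≤
        ((Z₁ y.2)ᶜ.toFinset ∩ (Z₂ y.1)ᶜ.toFinset).card ∧
        ∀ c, x c + y.1 c + y.2 c ∉ (Z₁ y.2)ᶜ.toFinset ∩ (Z₂ y.1)ᶜ.toFinset} := by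
    refine Nat.card_le_card_of_injective (fun p => ⟨p.1, ?_, ?_⟩) ?_
    · rw [hint, Finset.card_compl, ← Set.ncard_eq_toFinset_card',
        Nat.cast_sub ((Set.ncard_le_card _).trans (le_of_eq Nat.card_eq_fintype_card))]
      have h4 : ((Z₁ p.1.2 ∪ Z₂ p.1.1).ncard : ℝ) ≤ T := by exact_mod_cast p.2.1
      have h5 : (1 - τ) * Fintype.card B = Fintype.card B - T := by
        rw [hτ]
        field_simp
      rw [h5]
      linarith
    · intro c
      rw [hint, Finset.mem_compl, Set.mem_toFinset, not_not]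
      exact p.2.2 c
    · intro p q h
      exact Subtype.ext (Subtype.mk.inj h)
  have hN : (Nat.card ((ι → B) × (ι → B)) : ℝ) = ((Fintype.card B : ℝ) ^ Fintype.card ι) ^ 2 := by
    rw [Nat.card_prod, Nat.card_eq_fintype_card, Fintype.card_fun]
    push_cast
    ring
  have h6 : (0 : ℝ) < (1 + (1 - τ) / 2) ^ Fintype.card ι := pow_pos (by linarith) _
  have h7 : (2 / (3 - τ)) ^ Fintype.card ι * (1 + (1 - τ) / 2) ^ Fintype.card ι = 1 := by
    rw [← mul_pow]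
    have h8 : 2 / (3 - τ) * (1 + (1 - τ) / 2) = 1 := by
      have : 3 - τ ≠ 0 := by linarith
      field_simp
      ring
    rw [h8, one_pow]
  rw [hN, Nat.card_eq_fintype_card (α := ι)]
  have h9 : (Nat.card {p : (ι → B) × (ι → B) // (Z₁ p.2 ∪ Z₂ p.1).ncard ≤ T ∧
      ∀ t, x t + p.1 t + p.2 t ∈ Z₁ p.2 ∪ Z₂ p.1} : ℝ) * (1 + (1 - τ) / 2) ^ Fintype.card ι ≤
      2 * ((Fintype.card B : ℝ) ^ Fintype.card ι) ^ 2 :=
    (mul_le_mul_of_nonneg_right (by exact_mod_cast h3) h6.le).trans h2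
  refine le_of_mul_le_mul_right ?_ h6
  refine h9.trans (le_of_eq ?_)
  calc 2 * ((Fintype.card B : ℝ) ^ Fintype.card ι) ^ 2
      = 2 * ((Fintype.card B : ℝ) ^ Fintype.card ι) ^ 2 *
          ((2 / (3 - τ)) ^ Fintype.card ι * (1 + (1 - τ) / 2) ^ Fintype.card ι) := by rw [h7, mul_one]
    _ = _ := by ring

end Pool.Agent.Helper74.NO
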